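import Pool.Agent.X212.Tight.Union

set_option autoImplicit false

/-!
A finite simple graph with at least four vertices and at least one edge is `(3, 6)`-tight if and
only if it has property (P): for every edge `e` the edge set has a partition into three parts of
sizes `n - 1`, `n - 2`, `n - 3` with the three `(2, 3)`-tightness conditions.
-/

namespace Pool.Agent.Results.MP_eace5d_co.TightIffPartition

open Finset

/-- The finite multigraph with vertex set `W`, whose edges are the members of `S`, the edge `f`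
having the set of ends `en f`, is `(k, l)`-sparse: a subgraph with vertex set `X` of at least `k`
vertices and edge set `T` satisfies `|T| ≤ k |X| - l`. -/
def Sparse {V ε : Type} (k l : ℕ) (W : Finset V) (S : Finset ε) (en : ε → Finset V) : Prop :=
  ∀ X ⊆ W, ∀ T ⊆ S, (∀ f ∈ T, en f ⊆ X) → k ≤ X.card → T.card + l ≤ k * X.card

/-- `(k, l)`-tight: `(k, l)`-sparse with exactly `k |W| - l` edges. -/
def Tight {V ε : Type} (k l : ℕ) (W : Finset V) (S : Finset ε) (en : ε → Finset V) : Prop :=
  Sparse k l W S en ∧ S.card + l = k * W.card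

/-- The simple graph on the vertex type `V` with the set `S` of edges is `(k, l)`-tight. -/
def GraphTight {V : Type} [Fintype V] (k l : ℕ) (S : Finset (Finset V)) : Prop :=
  Tight k l univ S id

/-- The identification of `y` with `x`; the vertex `x` plays the role of the new vertex. -/
def merge {V : Type} [DecidableEq V] (x y v : V) : V := if v = y then x else v

/-- The contraction `(V, S)/e` for `e = {x, y}` is `(k, l)`-tight: the vertices are those different
from `y`, the edges are the members of `S` different from `e`, and the ends of `f` are the images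
of the members of `f` under the identification of `y` with `x`. -/
def ContractTight {V : Type} [Fintype V] [DecidableEq V] (k l : ℕ) (x y : V)
    (S : Finset (Finset V)) : Prop :=
  Tight k l (univ.erase y) (S.erase {x, y}) (fun f => f.image (merge x y))

/-- Property (P). -/
def PropP {V : Type} [Fintype V] [DecidableEq V] (E : Finset (Finset V)) : Prop :=
  ∀ x y : V, x ≠ y → {x, y} ∈ E → ∃ S₁ S₂ S₃ : Finset (Finset V),
    (S₁ ∪ S₂ ∪ S₃ = E ∧ Disjoint S₁ S₂ ∧ Disjoint S₁ S₃ ∧ Disjoint S₂ S₃) ∧
    (S₁.card + 1 = Fintype.card V ∧ S₂.card + 2 = Fintype.card V ∧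
      S₃.card + 3 = Fintype.card V) ∧
    {x, y} ∈ S₁ ∧
    GraphTight 2 3 (S₁ ∪ S₂) ∧ ContractTight 2 3 x y (S₁ ∪ S₃) ∧
    ContractTight 2 3 x y (insert {x, y} (S₂ ∪ S₃))

open Pool.Agent.X212.Tight Pool.Agent.H598R2.Cnt in
lemma forward {V : Type} [Fintype V] [DecidableEq V] (E : Finset (Finset V))
    (hE : ∀ f ∈ E, f.card = 2) (hV : 4 ≤ Fintype.card V) (h : GraphTight 3 6 E) : PropP E := by
  intro x y hxy he
  obtain ⟨hs, hc⟩ := h
  rw [card_univ] at hc
  have hE' : ∀ X : Finset V, 3 ≤ X.card → ins E X + 6 ≤ 3 * X.card := by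
    intro X hX
    exact hs X (subset_univ _) (E.filter (· ⊆ X)) (filter_subset _ _)
      (fun f hf => (mem_filter.1 hf).2) hX
  obtain ⟨A0, A1, A2, h0, h1, h2, hex, c0, c1, c2, s0, s1, s2, i1, i2⟩ :=
    union_main hxy hE hE' he hc (by omega)
  have e0 : ({x, y} : Finset V) ∉ A0 := fun h => notMem_erase _ _ (h0 h)
  have e1 : ({x, y} : Finset V) ∉ A1 := fun h => notMem_erase _ _ (h1 h)
  have e2 : ({x, y} : Finset V) ∉ A2 := fun h => notMem_erase _ _ (h2 h)
  have u0 : A0 ∩ A1 ∪ A0 ∩ A2 = A0 := by
    ext f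
    simp only [mem_union, mem_inter]
    constructor
    · rintro (h | h) <;> exact h.1
    · intro h
      rcases hex f (h0 h) with h' | h' | h'
      · exact Or.inl ⟨h, h'.2.1⟩
      · exact Or.inr ⟨h, h'.2.2⟩
      · exact absurd h h'.1
  have u1 : A0 ∩ A1 ∪ A1 ∩ A2 = A1 := by
    ext f
    simp only [mem_union, mem_inter]
    constructor
    · rintro (h | h)
      · exact h.2
      · exact h.1
    · intro h
      rcases hex f (h1 h) with h' | h' | h'
      · exact Or.inl ⟨h'.1, h⟩
      · exact absurd h h'.2.1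
      · exact Or.inr ⟨h, h'.2.2⟩
  have u2 : A0 ∩ A2 ∪ A1 ∩ A2 = A2 := by
    ext f
    simp only [mem_union, mem_inter]
    constructor
    · rintro (h | h) <;> exact h.2
    · intro h
      rcases hex f (h2 h) with h' | h' | h'
      · exact absurd h h'.2.2
      · exact Or.inl ⟨h'.1, h⟩
      · exact Or.inr ⟨h'.2.1, h⟩
  have d0 : Disjoint (A0 ∩ A1) (A0 ∩ A2) := by
    rw [disjoint_left]
    intro f hf hf'
    rw [mem_inter] at hf hf'
    rcases hex f (h0 hf.1) with h' | h' | h'
    · exact h'.2.2 hf'.2
    · exact h'.2.1 hf.2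
    · exact h'.1 hf.1
  have d1 : Disjoint (A0 ∩ A1) (A1 ∩ A2) := by
    rw [disjoint_left]
    intro f hf hf'
    rw [mem_inter] at hf hf'
    rcases hex f (h0 hf.1) with h' | h' | h'
    · exact h'.2.2 hf'.2
    · exact h'.2.1 hf.2
    · exact h'.1 hf.1
  have d2 : Disjoint (A0 ∩ A2) (A1 ∩ A2) := by
    rw [disjoint_left]
    intro f hf hf'
    rw [mem_inter] at hf hf'
    rcases hex f (h0 hf.1) with h' | h' | h'
    · exact h'.2.2 hf'.2
    · exact h'.2.1 hf'.1
    · exact h'.1 hf.1
  have k0 : (A0 ∩ A1).card + (A0 ∩ A2).card = A0.card := by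
    rw [← card_union_of_disjoint d0, u0]
  have k1 : (A0 ∩ A1).card + (A1 ∩ A2).card = A1.card := by
    rw [← card_union_of_disjoint d1, u1]
  have k2 : (A0 ∩ A2).card + (A1 ∩ A2).card = A2.card := by
    rw [← card_union_of_disjoint d2, u2]
  have e01 : ({x, y} : Finset V) ∉ A0 ∩ A1 := fun h => e0 (mem_inter.1 h).1
  have e02 : ({x, y} : Finset V) ∉ A0 ∩ A2 := fun h => e0 (mem_inter.1 h).1
  have e12 : ({x, y} : Finset V) ∉ A1 ∩ A2 := fun h => e1 (mem_inter.1 h).1
  have hce : (univ.erase y).card + 1 = Fintype.card V := by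
    rw [card_erase_add_one (mem_univ y), card_univ]
  have hcon : ∀ A : Finset (Finset V), Sp (A.image (fun f => f.image (ct x y))) →
      Set.InjOn (fun f : Finset V => f.image (ct x y)) (A : Set (Finset V)) →
      A.card + 5 = 2 * Fintype.card V →
      Tight 2 3 (univ.erase y) A (fun f => f.image (merge x y)) := by
    intro A hA hi hcA
    refine ⟨?_, by omega⟩
    intro X _ T hT hTX hX
    have h3 : (T.image (fun f => f.image (ct x y))).card = T.card :=
      card_image_of_injOn (hi.mono (by exact_mod_cast hT))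
    have h4 : (T.image (fun f => f.image (ct x y))).card ≤
        ins (A.image (fun f => f.image (ct x y))) X := by
      unfold ins
      apply card_le_card
      intro p hp
      obtain ⟨f, hf, rfl⟩ := mem_image.1 hp
      exact mem_filter.2 ⟨mem_image_of_mem _ (hT hf), hTX f hf⟩
    have h5 := hA X hX
    omega
  refine ⟨insert {x, y} (A0 ∩ A1), A0 ∩ A2, A1 ∩ A2, ⟨?_, ?_, ?_, d2⟩, ⟨?_, ?_, ?_⟩,
    mem_insert_self _ _, ?_, ?_, ?_⟩
  · ext f
    constructor
    · intro hf
      rcases mem_union.1 hf with hf | hf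
      · rcases mem_union.1 hf with hf | hf
        · rcases mem_insert.1 hf with rfl | hf
          · exact he
          · exact mem_of_mem_erase (h0 (mem_inter.1 hf).1)
        · exact mem_of_mem_erase (h0 (mem_inter.1 hf).1)
      · exact mem_of_mem_erase (h1 (mem_inter.1 hf).1)
    · intro hf
      by_cases hfe : f = {x, y}
      · subst hfe
        simp
      · rcases hex f (mem_erase.2 ⟨hfe, hf⟩) with h' | h' | h'
        · exact mem_union_left _ (mem_union_left _ (mem_insert_of_mem (mem_inter.2 ⟨h'.1, h'.2.1⟩)))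
        · exact mem_union_left _ (mem_union_right _ (mem_inter.2 ⟨h'.1, h'.2.2⟩))
        · exact mem_union_right _ (mem_inter.2 ⟨h'.2.1, h'.2.2⟩)
  · rw [disjoint_insert_left]
    exact ⟨e02, d0⟩
  · rw [disjoint_insert_left]
    exact ⟨e12, d1⟩
  · rw [card_insert_of_notMem e01]
    omega
  · omega
  · omega
  · have hu : insert {x, y} (A0 ∩ A1) ∪ A0 ∩ A2 = insert {x, y} A0 := by
      rw [insert_union, u0]
    rw [hu]
    refine ⟨?_, ?_⟩
    · intro X _ T hT hTX hX
      have h4 : T.card ≤ ins (insert {x, y} A0) X := by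
        unfold ins
        apply card_le_card
        intro p hp
        exact mem_filter.2 ⟨hT hp, hTX p hp⟩
      have h5 := s0 X hX
      omega
    · rw [card_insert_of_notMem e0, card_univ]
      omega
  · have hu : (insert {x, y} (A0 ∩ A1) ∪ A1 ∩ A2).erase {x, y} = A1 := by
      rw [insert_union, u1, erase_insert e1]
    unfold ContractTight
    rw [hu]
    exact hcon A1 s1 i1 c1
  · have hu : (insert {x, y} (A0 ∩ A2 ∪ A1 ∩ A2)).erase {x, y} = A2 := by
      rw [u2, erase_insert e2]
    unfold ContractTight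
    rw [hu]
    exact hcon A2 s2 i2 c2

lemma backward {V : Type} [Fintype V] [DecidableEq V] (E : Finset (Finset V))
    (hE : ∀ f ∈ E, f.card = 2) (hne : E.Nonempty) (h : PropP E) : GraphTight 3 6 E := by
  have hpair : ∀ f ∈ E, ∃ x y : V, x ≠ y ∧ f = {x, y} := fun f hf => card_eq_two.1 (hE f hf)
  refine ⟨?_, ?_⟩
  · intro X _ T hT hTX hX
    rcases T.eq_empty_or_nonempty with rfl | ⟨f, hf⟩
    · rw [card_empty]
      omega
    obtain ⟨x, y, hxy, rfl⟩ := hpair f (hT hf)
    obtain ⟨S₁, S₂, S₃, ⟨hu, d12, d13, d23⟩, _, he1, t1, t2, t3⟩ := h x y hxy (hT hf)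
    have hxX : x ∈ X := hTX _ hf (by simp)
    have hyX : y ∈ X := hTX _ hf (by simp)
    have hce : (X.erase y).card + 1 = X.card := card_erase_add_one hyX
    have hTu : T = (T ∩ S₁) ∪ (T ∩ S₂) ∪ (T ∩ S₃) := by
      rw [← inter_union_distrib_left, ← inter_union_distrib_left, hu]
      exact (inter_eq_left.2 hT).symm
    have hd1 : Disjoint (T ∩ S₁) (T ∩ S₂) := d12.mono inter_subset_right inter_subset_right
    have hd2 : Disjoint (T ∩ S₁) (T ∩ S₃) := d13.mono inter_subset_right inter_subset_right
    have hd3 : Disjoint (T ∩ S₂) (T ∩ S₃) := d23.mono inter_subset_right inter_subset_right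
    have hc : T.card = (T ∩ S₁).card + (T ∩ S₂).card + (T ∩ S₃).card := by
      conv_lhs => rw [hTu]
      rw [card_union_of_disjoint (disjoint_union_left.2 ⟨hd2, hd3⟩), card_union_of_disjoint hd1]
    have himg : ∀ f ∈ T, f.image (merge x y) ⊆ X.erase y := by
      intro f hf v hv
      obtain ⟨w, hw, rfl⟩ := mem_image.1 hv
      unfold merge
      split_ifs with hwy
      · exact mem_erase.2 ⟨hxy, hxX⟩
      · exact mem_erase.2 ⟨hwy, hTX f hf hw⟩
    have a1 := t1.1 X (subset_univ _) ((T ∩ S₁) ∪ (T ∩ S₂))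
      (union_subset_union inter_subset_right inter_subset_right)
      (fun f hf => by
        rcases mem_union.1 hf with hf | hf <;> exact hTX f (mem_inter.1 hf).1) (by omega)
    rw [card_union_of_disjoint hd1] at a1
    have hsub : X.erase y ⊆ univ.erase y := erase_subset_erase _ (subset_univ _)
    have a2 := t2.1 (X.erase y) hsub (((T ∩ S₁) ∪ (T ∩ S₃)).erase {x, y})
      (erase_subset_erase _ (union_subset_union inter_subset_right inter_subset_right))
      (fun f hf => by
        rcases mem_union.1 (mem_of_mem_erase hf) with hf | hf <;>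
          exact himg f (mem_inter.1 hf).1) (by omega)
    have hmem : ({x, y} : Finset V) ∈ (T ∩ S₁) ∪ (T ∩ S₃) :=
      mem_union_left _ (mem_inter.2 ⟨hf, he1⟩)
    have a2' := card_erase_add_one hmem
    rw [card_union_of_disjoint hd2] at a2'
    have a3 := t3.1 (X.erase y) hsub ((T ∩ S₂) ∪ (T ∩ S₃))
      (fun f hf => by
        have hf' : f ∈ S₂ ∪ S₃ := union_subset_union inter_subset_right inter_subset_right hf
        refine mem_erase.2 ⟨?_, mem_insert_of_mem hf'⟩
        rintro rfl
        rcases mem_union.1 hf' with h' | h'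
        · exact disjoint_left.1 d12 he1 h'
        · exact disjoint_left.1 d13 he1 h')
      (fun f hf => by
        rcases mem_union.1 hf with hf | hf <;> exact himg f (mem_inter.1 hf).1) (by omega)
    rw [card_union_of_disjoint hd3] at a3
    omega
  · obtain ⟨f, hf⟩ := hne
    obtain ⟨x, y, hxy, rfl⟩ := hpair f hf
    obtain ⟨S₁, S₂, S₃, ⟨hu, d12, d13, d23⟩, ⟨c1, c2, c3⟩, _⟩ := h x y hxy hf
    rw [← hu, card_union_of_disjoint (disjoint_union_left.2 ⟨d13, d23⟩),
      card_union_of_disjoint d12, card_univ]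
    omega

/-- A finite simple graph with at least four vertices and at least one edge is `(3, 6)`-tight if
and only if it has property (P). -/
theorem result (V : Type) [Fintype V] [DecidableEq V] (E : Finset (Finset V))
    (hE : ∀ f ∈ E, f.card = 2) (hne : E.Nonempty) (hV : 4 ≤ Fintype.card V) :
    GraphTight 3 6 E ↔ PropP E :=
  ⟨forward E hE hV, backward E hE hne⟩

end Pool.Agent.Results.MP_eace5d_co.TightIffPartition
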